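import Mathlib

namespace Pool.Agent.Results.MP_c90a8c_co.Recurrence

open Finset

/-- area(γ) = Σ γ_i − #{i : γ_i > 0}. -/
def area {n : ℕ} (γ : Fin n → ℕ) : ℕ :=
  ∑ i, γ i - (univ.filter fun i => 0 < γ i).card

/-- dinv(γ,π) = #{i<j : γ_i = γ_j, π_i > π_j} + #{i<j : γ_j = γ_i + 1, π_i < π_j}. -/
def dinv {n : ℕ} (γ : Fin n → ℕ) (π : Fin n → ℕ+) : ℕ :=
  (univ.filter fun p : Fin n × Fin n => p.1 < p.2 ∧ γ p.1 = γ p.2 ∧ π p.2 < π p.1).card +
  (univ.filter fun p : Fin n × Fin n => p.1 < p.2 ∧ γ p.2 = γ p.1 + 1 ∧ π p.1 < π p.2).card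

/-- The exponent vector of the monomial x^π = Π x_(π_i). -/
noncomputable def content {n : ℕ} (π : Fin n → ℕ+) : ℕ+ →₀ ℕ :=
  ∑ i, Finsupp.single (π i) 1

/-- The pairs (γ,π) in the sum defining L_v (the letter 1 of v is `true`, the letter 0 is `false`)
whose term is q^a t^d x^α. -/
def terms {n : ℕ} (v : Fin n → Bool) (α : ℕ+ →₀ ℕ) (a d : ℕ) :
    Set ((Fin n → ℕ) × (Fin n → ℕ+)) :=
  {p | (∀ i, p.1 i = 0 ↔ v i = true) ∧ area p.1 = a ∧ dinv p.1 p.2 = d ∧ content p.2 = α}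

/-- The link symmetric function L_v, a power series in x_1, x_2, ... with coefficients in
ℤ[[q,t]] (q is the variable 0 and t the variable 1): the coefficient of q^a t^d x^α is the number
of pairs (γ,π) contributing that term. -/
noncomputable def L {n : ℕ} (v : Fin n → Bool) :
    MvPowerSeries ℕ+ (MvPowerSeries (Fin 2) ℤ) :=
  fun α => fun e => ((terms v α (e 0) (e 1)).ncard : ℤ)

theorem area_eq {n : ℕ} (γ : Fin n → ℕ) : area γ = ∑ i, (γ i - 1) := by
  unfold area
  have : ∑ i, γ i = ∑ i, (γ i - 1) + (univ.filter fun i => 0 < γ i).card := by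
    rw [card_filter, ← sum_add_distrib]
    refine sum_congr rfl fun i _ => ?_
    split_ifs <;> omega
  omega

theorem dinv_eq {n : ℕ} (γ : Fin n → ℕ) (π : Fin n → ℕ+) : dinv γ π =
    ∑ i, ∑ j, ((if i < j ∧ γ i = γ j ∧ π j < π i then 1 else 0) +
      (if i < j ∧ γ j = γ i + 1 ∧ π i < π j then 1 else 0)) := by
  unfold dinv
  rw [card_filter, card_filter, ← sum_add_distrib, Fintype.sum_prod_type]

theorem dinv_rot {n : ℕ} (γ : Fin n → ℕ) (π : Fin n → ℕ+) (g : ℕ) (c : ℕ+) :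
    dinv (Fin.snoc γ (g + 1) : Fin (n + 1) → ℕ) (Fin.snoc π c : Fin (n + 1) → ℕ+) =
      dinv (Fin.cons g γ : Fin (n + 1) → ℕ) (Fin.cons c π : Fin (n + 1) → ℕ+) := by
  rw [dinv_eq, dinv_eq]
  conv_lhs => simp only [Fin.sum_univ_castSucc]
  conv_rhs => simp only [Fin.sum_univ_succ]
  have h1 : ∀ i : Fin n, ¬ (Fin.last n < i.castSucc) := fun i => not_lt.2 (Fin.le_last _)
  simp only [Fin.snoc_castSucc, Fin.snoc_last, Fin.cons_zero, Fin.cons_succ,
    Fin.castSucc_lt_castSucc_iff, Fin.succ_lt_succ_iff, Fin.castSucc_lt_last, Fin.succ_pos,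
    lt_irrefl, h1, Fin.not_lt_zero, false_and, true_and, if_false, add_zero, zero_add,
    sum_const_zero, sum_add_distrib, add_left_inj, eq_comm (a := g)]
  ring

theorem area_snoc {n : ℕ} (γ : Fin n → ℕ) (g : ℕ) :
    area (Fin.snoc γ g : Fin (n + 1) → ℕ) = area γ + (g - 1) := by
  simp [area_eq, Fin.sum_univ_castSucc]

theorem area_cons {n : ℕ} (γ : Fin n → ℕ) (g : ℕ) :
    area (Fin.cons g γ : Fin (n + 1) → ℕ) = area γ + (g - 1) := by
  simp [area_eq, Fin.sum_univ_succ, add_comm]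

theorem content_rot {n : ℕ} (π : Fin n → ℕ+) (c : ℕ+) :
    content (Fin.snoc π c : Fin (n + 1) → ℕ+) = content (Fin.cons c π : Fin (n + 1) → ℕ+) := by
  unfold content
  rw [Fin.sum_univ_castSucc, Fin.sum_univ_succ]
  simp [add_comm]

theorem terms_finite {n : ℕ} (v : Fin n → Bool) (α : ℕ+ →₀ ℕ) (a d : ℕ) :
    (terms v α a d).Finite := by
  have hA : (Set.pi Set.univ fun _ : Fin n => Set.Iic (a + 1)).Finite :=
    Set.Finite.pi fun _ => Set.finite_Iic _
  have hB : (Set.pi Set.univ fun _ : Fin n => (α.support : Set ℕ+)).Finite :=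
    Set.Finite.pi fun _ => α.support.finite_toSet
  refine (hA.prod hB).subset ?_
  rintro ⟨γ, π⟩ ⟨-, h2, -, h4⟩
  refine ⟨fun i _ => ?_, fun i _ => ?_⟩
  · have : γ i - 1 ≤ ∑ j, (γ j - 1) :=
      single_le_sum (f := fun j => γ j - 1) (fun _ _ => Nat.zero_le _) (mem_univ i)
    rw [area_eq] at h2
    simp only at h2
    simp only [Set.mem_Iic]
    omega
  · simp only [mem_coe, Finsupp.mem_support_iff, ← h4, content, Finsupp.finsetSum_apply]
    have : (Finsupp.single (π i) 1 : ℕ+ →₀ ℕ) (π i) ≤ ∑ j, (Finsupp.single (π j) 1 : ℕ+ →₀ ℕ) (π i) :=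
      single_le_sum (f := fun j => (Finsupp.single (π j) 1 : ℕ+ →₀ ℕ) (π i))
        (fun _ _ => Nat.zero_le _) (mem_univ i)
    simp only [Finsupp.single_eq_same] at this
    omega

/-- The rotation (g γ, c π) ↦ (γ (g+1), π c). -/
def rot {n : ℕ} (p : (Fin (n + 1) → ℕ) × (Fin (n + 1) → ℕ+)) :
    (Fin (n + 1) → ℕ) × (Fin (n + 1) → ℕ+) :=
  (Fin.snoc (Fin.tail p.1) (p.1 0 + 1), Fin.snoc (Fin.tail p.2) (p.2 0))

theorem rot_inj {n : ℕ} : Function.Injective (rot (n := n)) := by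
  rintro ⟨γ, π⟩ ⟨γ', π'⟩ h
  simp only [rot, Prod.mk.injEq, Fin.snoc_inj, add_left_inj] at h
  obtain ⟨⟨h1, h2⟩, h3, h4⟩ := h
  rw [← Fin.cons_self_tail γ, ← Fin.cons_self_tail π, h1, h2, h3, h4]
  simp

theorem terms_snoc {n : ℕ} (v : Fin n → Bool) (α : ℕ+ →₀ ℕ) (a d : ℕ) :
    terms (Fin.snoc v false : Fin (n + 1) → Bool) α a d =
      rot '' (terms (Fin.cons true v : Fin (n + 1) → Bool) α a d ∪
        {p | p ∈ terms (Fin.cons false v : Fin (n + 1) → Bool) α (a - 1) d ∧ 1 ≤ a}) := by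
  ext ⟨γ, π⟩
  constructor
  · rintro ⟨h1, h2, h3, h4⟩
    simp only at h1 h2 h3 h4
    have hl := h1 (Fin.last n)
    simp only [Fin.snoc_last, Bool.false_eq_true, iff_false] at hl
    obtain ⟨g, hg⟩ : ∃ g, γ (Fin.last n) = g + 1 := Nat.exists_eq_succ_of_ne_zero hl
    have e1 : γ = Fin.snoc (Fin.init γ) (g + 1) := by rw [← hg, Fin.snoc_init_self]
    have e2 : π = Fin.snoc (Fin.init π) (π (Fin.last n)) := (Fin.snoc_init_self π).symm
    have h1' : ∀ i : Fin n, Fin.init γ i = 0 ↔ v i = true := fun i => by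
      simpa [Fin.init] using h1 i.castSucc
    rw [e1, area_snoc] at h2
    rw [e1, e2, dinv_rot] at h3
    rw [e2, content_rot] at h4
    refine ⟨(Fin.cons g (Fin.init γ), Fin.cons (π (Fin.last n)) (Fin.init π)), ?_, ?_⟩
    · rcases Nat.eq_zero_or_pos g with rfl | hg0
      · left
        refine ⟨fun i => ?_, ?_, h3, h4⟩
        · refine Fin.cases ?_ (fun i => ?_) i
          · simp
          · simpa using h1' i
        · simp only [area_cons]; omega
      · right
        refine ⟨⟨fun i => ?_, ?_, h3, h4⟩, by omega⟩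
        · refine Fin.cases ?_ (fun i => ?_) i
          · simp; omega
          · simpa using h1' i
        · simp only [area_cons]; omega
    · simp only [rot, Fin.tail_cons, Fin.cons_zero]
      rw [← e1, ← e2]
  · rintro ⟨⟨γ', π'⟩, h, he⟩
    simp only [rot, Prod.mk.injEq] at he
    obtain ⟨rfl, rfl⟩ := he
    have e1 : γ' = Fin.cons (γ' 0) (Fin.tail γ') := (Fin.cons_self_tail γ').symm
    have e2 : π' = Fin.cons (π' 0) (Fin.tail π') := (Fin.cons_self_tail π').symm
    have key : ∀ b : Bool, (∀ i, γ' i = 0 ↔ (Fin.cons b v : Fin (n + 1) → Bool) i = true) →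
        ∀ i, (Fin.snoc (Fin.tail γ') (γ' 0 + 1) : Fin (n + 1) → ℕ) i = 0 ↔
          (Fin.snoc v false : Fin (n + 1) → Bool) i = true := by
      intro b hb i
      refine Fin.lastCases ?_ (fun i => ?_) i
      · simp
      · simpa [Fin.tail] using hb i.succ
    rcases h with ⟨h1, h2, h3, h4⟩ | ⟨⟨h1, h2, h3, h4⟩, h5⟩
    · simp only at h1 h2 h3 h4
      have h0 := h1 0
      simp only [Fin.cons_zero, iff_true] at h0
      rw [e1, area_cons] at h2
      refine ⟨key _ h1, ?_, ?_, ?_⟩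
      · simp only [area_snoc]; omega
      · simp only [dinv_rot]; rw [← e1, ← e2, h3]
      · simp only [content_rot]; rw [← e2, h4]
    · simp only at h1 h2 h3 h4
      have h0 := h1 0
      simp only [Fin.cons_zero, Bool.false_eq_true, iff_false] at h0
      rw [e1, area_cons] at h2
      refine ⟨key _ h1, ?_, ?_, ?_⟩
      · simp only [area_snoc]; omega
      · simp only [dinv_rot]; rw [← e1, ← e2, h3]
      · simp only [content_rot]; rw [← e2, h4]

theorem ncard_snoc {n : ℕ} (v : Fin n → Bool) (α : ℕ+ →₀ ℕ) (a d : ℕ) :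
    (terms (Fin.snoc v false : Fin (n + 1) → Bool) α a d).ncard =
      (terms (Fin.cons true v : Fin (n + 1) → Bool) α a d).ncard +
        if 1 ≤ a then (terms (Fin.cons false v : Fin (n + 1) → Bool) α (a - 1) d).ncard else 0 := by
  rw [terms_snoc, Set.ncard_image_of_injective _ rot_inj, Set.ncard_union_eq _ (terms_finite ..)
    ((terms_finite _ α (a - 1) d).subset fun p hp => hp.1)]
  · split_ifs with h <;> simp [h]
  · rw [Set.disjoint_left]
    rintro p ⟨h1, -⟩ ⟨⟨h2, -⟩, -⟩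
    have h3 := h1 0
    have h4 := h2 0
    simp only [Fin.cons_zero, iff_true, Bool.false_eq_true, iff_false] at h3 h4
    exact h4 h3

/-- Every coefficient of every L_w is a finite count, and L_(v0) = L_(1v) + q L_(0v). -/
theorem result :
    (∀ (m : ℕ) (w : Fin m → Bool) (α : ℕ+ →₀ ℕ) (a d : ℕ), (terms w α a d).Finite) ∧
    ∀ (n : ℕ) (v : Fin n → Bool),
      L (Fin.snoc v false : Fin (n + 1) → Bool) =
        L (Fin.cons true v : Fin (n + 1) → Bool) +
          MvPowerSeries.C (MvPowerSeries.X 0) * L (Fin.cons false v : Fin (n + 1) → Bool) := by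
  refine ⟨fun m w α a d => terms_finite w α a d, fun n v => ?_⟩
  ext α e
  rw [map_add, MvPowerSeries.coeff_C_mul, map_add, MvPowerSeries.X_def,
    MvPowerSeries.coeff_monomial_mul]
  simp only [MvPowerSeries.coeff_apply, L, ncard_snoc, Finsupp.single_le_iff, one_mul,
    Finsupp.tsub_apply, Finsupp.single_eq_same]
  split_ifs <;> simp

end Pool.Agent.Results.MP_c90a8c_co.Recurrence
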